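import Pool.Agent.Helper76.SPX.Planch

/-! # SPX, part DENS: lower density of spectra -/

set_option autoImplicit false

open MeasureTheory Filter Topology Set
open scoped InnerProductSpace ENNReal

namespace Pool.Agent.Helper76.SPX.DENS

open Pool.Agent.Helper64.SPX Pool.Agent.Helper76.SPX

variable {ι : Type} [Fintype ι]

lemma bdd_ind {Ω : Set (E ι)} (hm : MeasurableSet Ω) (hb : Bornology.IsBounded Ω) :
    Bdd (ind Ω) := by
  refine ⟨measurable_const.indicator hm, ⟨1, fun x => ?_⟩, ?_⟩
  · unfold ind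
    by_cases h : x ∈ Ω <;> simp [h]
  · obtain ⟨r, hr⟩ := hb.subset_ball 0
    refine ⟨r, fun x hx => ?_⟩
    unfold ind
    apply indicator_of_notMem
    intro h
    have := hr h
    rw [mem_ball_zero_iff] at this
    linarith

lemma int_ind {Ω : Set (E ι)} (hm : MeasurableSet Ω) :
    ∫ x, ‖ind Ω x‖ ^ 2 = (volume Ω).toReal := by
  have : ∀ x, ‖ind Ω x‖ ^ 2 = Ω.indicator (fun _ => (1 : ℝ)) x := by
    intro x
    unfold ind
    by_cases h : x ∈ Ω <;> simp [h]
  simp only [this]
  rw [integral_indicator hm, setIntegral_const, smul_eq_mul, mul_one]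
  rfl

lemma q_eq (R : ℝ) (hR : 0 ≤ R) : q ι R = R ^ (Fintype.card ι) * q ι 1 := by
  unfold q
  rw [Measure.addHaar_closedBall _ _ hR, Measure.addHaar_closedBall _ _ zero_le_one]
  simp [ENNReal.toReal_mul, hR]

lemma q_one_pos : 0 < q ι 1 := by
  unfold q
  apply ENNReal.toReal_pos
  · exact (Metric.measure_closedBall_pos _ _ one_pos).ne'
  · exact (Metric.isBounded_closedBall.measure_lt_top).ne

theorem main (hA : S_AMAL) : S_DENS := by
  classical
  intro ι _ Ω Λ hm hb hpos hP r hr hsep ε hε
  set v := (volume Ω).toReal with hv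
  have hfin : volume Ω ≠ ⊤ := hb.measure_lt_top.ne
  have hv0 : 0 < v := ENNReal.toReal_pos hpos.ne' hfin
  have hB := bdd_ind hm hb
  obtain ⟨-, hA2⟩ := hA ι (ind Ω) hB r hr
  obtain ⟨ρ, hρ⟩ := hA2 (v * ε / 2) (by positivity)
  obtain ⟨hi1, hi2, hi3⟩ := planch_bdd (ind Ω) hB
  rw [int_ind hm] at hi3
  -- lower bound of the finite sum
  have low : ∀ (R : ℝ) (S : Finset (E ι)), Trunc Λ R S → ∀ z : E ι, ‖z‖ ≤ R - ρ →
      v * v - v * ε / 2 ≤ ∑ a ∈ S, ‖ft (ind Ω) (z - a)‖ ^ 2 := by
    intro R S hS z hz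
    have h1 := hP (ind Ω) hB (fun x hx => by unfold ind; exact indicator_of_notMem hx _) z
    rw [int_ind hm] at h1
    have h2 : v * v ≤ ∑ a ∈ S, ‖ft (ind Ω) (z - a)‖ ^ 2 + v * ε / 2 := by
      refine hasSum_le_of_sum_le h1 fun F => ?_
      set F' : Finset (E ι) := F.map (Function.Embedding.subtype _) with hF'
      have e1 : ∑ a ∈ F, ‖ft (ind Ω) (z - a)‖ ^ 2 = ∑ a ∈ F', ‖ft (ind Ω) (z - a)‖ ^ 2 := by
        rw [hF', Finset.sum_map]
        rfl
      have hFΛ : ∀ a ∈ F', a ∈ Λ := by
        intro a ha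
        rw [hF', Finset.mem_map] at ha
        obtain ⟨b, _, rfl⟩ := ha
        exact b.2
      rw [e1, ← Finset.sum_inter_add_sum_sdiff F' S]
      apply add_le_add
      · exact Finset.sum_le_sum_of_subset_of_nonneg Finset.inter_subset_right
          (fun _ _ _ => by positivity)
      · apply hρ
        · intro a ha b hb' hab
          have ha' : a ∈ F' := (Finset.mem_sdiff.1 ha).1
          have hb'' : b ∈ F' := (Finset.mem_sdiff.1 hb').1
          exact hsep a (hFΛ a ha') b (hFΛ b hb'') hab
        · intro a ha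
          obtain ⟨ha1, ha2⟩ := Finset.mem_sdiff.1 ha
          have h3 : a ∉ Metric.closedBall (0 : E ι) R := by
            intro h
            apply ha2
            have : a ∈ (S : Set (E ι)) := by
              rw [hS]
              exact ⟨hFΛ a ha1, h⟩
            exact this
          rw [mem_closedBall_zero_iff, not_le] at h3
          have h4 : ‖a‖ ≤ ‖z - a‖ + ‖z‖ := by
            have := norm_sub_le z (z - a)
            rw [sub_sub_cancel] at this
            linarith
          linarith
    linarith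
  -- integration
  have main1 : ∀ (R : ℝ) (S : Finset (E ι)), ρ ≤ R → Trunc Λ R S →
      (v - ε / 2) * q ι (R - ρ) ≤ (S.card : ℝ) := by
    intro R S hRρ hS
    have hint : ∀ a : E ι, Integrable (fun z => ‖ft (ind Ω) (z - a)‖ ^ 2) :=
      fun a => hi2.comp_sub_right a
    have h1 : ∫ z, ∑ a ∈ S, ‖ft (ind Ω) (z - a)‖ ^ 2 = S.card * v := by
      rw [integral_finsetSum _ (fun a _ => hint a)]
      have : ∀ a ∈ S, ∫ z, ‖ft (ind Ω) (z - a)‖ ^ 2 = v := by
        intro a _
        rw [integral_sub_right_eq_self (fun z => ‖ft (ind Ω) z‖ ^ 2) a, hi3]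
      rw [Finset.sum_congr rfl this, Finset.sum_const, nsmul_eq_mul]
    have h2 : (v * v - v * ε / 2) * q ι (R - ρ) ≤ ∫ z, ∑ a ∈ S, ‖ft (ind Ω) (z - a)‖ ^ 2 := by
      have hI : Integrable (fun z => ∑ a ∈ S, ‖ft (ind Ω) (z - a)‖ ^ 2) :=
        integrable_finsetSum _ (fun a _ => hint a)
      calc (v * v - v * ε / 2) * q ι (R - ρ)
          = ∫ z in Metric.closedBall (0 : E ι) (R - ρ), (v * v - v * ε / 2) := by
            rw [setIntegral_const, smul_eq_mul, mul_comm]
            rfl
        _ ≤ ∫ z in Metric.closedBall (0 : E ι) (R - ρ), ∑ a ∈ S, ‖ft (ind Ω) (z - a)‖ ^ 2 := by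
            apply setIntegral_mono_on
            · exact integrableOn_const (Metric.isBounded_closedBall.measure_lt_top).ne
            · exact hI.integrableOn
            · exact Metric.isClosed_closedBall.measurableSet
            · intro z hz
              exact low R S hS z (by rwa [mem_closedBall_zero_iff] at hz)
        _ ≤ _ := setIntegral_le_integral hI (Eventually.of_forall fun z => by positivity)
    rw [h1] at h2
    have h3 : v * ((v - ε / 2) * q ι (R - ρ)) ≤ v * S.card := by
      calc v * ((v - ε / 2) * q ι (R - ρ)) = (v * v - v * ε / 2) * q ι (R - ρ) := by ring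
        _ ≤ _ := h2
        _ = _ := by ring
    exact le_of_mul_le_mul_left h3 hv0
  -- comparison of balls
  rcases le_or_gt v ε with hve | hve
  · refine ⟨0, fun R _ S _ => ?_⟩
    have : 0 ≤ q ι R := ENNReal.toReal_nonneg
    have h1 : (v - ε) * q ι R ≤ 0 := mul_nonpos_of_nonpos_of_nonneg (by linarith) this
    exact h1.trans (by positivity)
  · set n := Fintype.card ι
    have hlim : Tendsto (fun R : ℝ => (v - ε / 2) * (1 - ρ / R) ^ n) atTop
        (𝓝 ((v - ε / 2) * (1 - 0) ^ n)) := by
      apply Tendsto.const_mul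
      apply Tendsto.pow
      exact tendsto_const_nhds.sub (tendsto_const_nhds.div_atTop tendsto_id)
    have hlt : v - ε < (v - ε / 2) * (1 - 0) ^ n := by
      rw [sub_zero, one_pow, mul_one]
      linarith
    obtain ⟨R1, hR1⟩ := (hlim.eventually (lt_mem_nhds hlt)).exists_forall_of_atTop
    refine ⟨max R1 (max 1 ρ), fun R hR S hS => ?_⟩
    have hR1' : R1 ≤ R := (le_max_left _ _).trans hR
    have hR2 : 1 ≤ R := (le_max_left _ _).trans ((le_max_right _ _).trans hR)
    have hR3 : ρ ≤ R := (le_max_right _ _).trans ((le_max_right _ _).trans hR)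
    have h1 := hR1 R hR1'
    refine le_trans ?_ (main1 R S hR3 hS)
    rw [q_eq R (by linarith), q_eq (R - ρ) (by linarith)]
    have h2 : (R - ρ) ^ n = (1 - ρ / R) ^ n * R ^ n := by
      rw [← mul_pow]
      congr 1
      field_simp
    calc (v - ε) * (R ^ n * q ι 1) ≤ ((v - ε / 2) * (1 - ρ / R) ^ n) * (R ^ n * q ι 1) := by
          have := (q_one_pos (ι := ι)).le
          gcongr
      _ = (v - ε / 2) * ((R - ρ) ^ n * q ι 1) := by rw [h2]; ring

end Pool.Agent.Helper76.SPX.DENS
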