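import Pool.Agent.Helper64.SPX.Spec3

/-! # SPX, part K6: Selling's reduction, every lattice of `ℝ³` has an obtuse superbase -/

set_option autoImplicit false

open MeasureTheory Filter Topology Set
open scoped InnerProductSpace ENNReal

namespace Pool.Agent.Helper76.SPX.K6

open Pool.Agent.Helper64.SPX

lemma mem_L {ι ω : Type} [Fintype ι] [Fintype ω] (b : ω → E ι) (x : E ι) :
    (∃ c : ω → ℤ, x = ∑ o, (c o : ℝ) • b o) ↔ x ∈ Submodule.span ℤ (Set.range b) := by
  rw [Submodule.mem_span_range_iff_exists_fun]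
  constructor
  · rintro ⟨c, hc⟩
    refine ⟨c, ?_⟩
    rw [hc]
    exact Finset.sum_congr rfl fun o _ => (Int.cast_smul_eq_zsmul ℝ (c o) (b o)).symm
  · rintro ⟨c, hc⟩
    refine ⟨c, ?_⟩
    rw [← hc]
    exact Finset.sum_congr rfl fun o _ => (Int.cast_smul_eq_zsmul ℝ (c o) (b o)).symm

variable {ι : Type} [Fintype ι]

/-- superbases of the lattice of `β` -/
def SB (β : Module.Basis ι ℝ (E ι)) : Set (Option ι → E ι) :=
  {b | ∑ o, b o = 0 ∧ Submodule.span ℤ (Set.range b) = Submodule.span ℤ (Set.range β)}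

/-- energy -/
noncomputable def en (b : Option ι → E ι) : ℝ := ∑ o, ‖b o‖ ^ 2

lemma sb_nonempty (β : Module.Basis ι ℝ (E ι)) : (SB β).Nonempty := by
  refine ⟨fun o => o.elim (-∑ i, β i) (fun i => β i), ?_, ?_⟩
  · rw [Fintype.sum_option]
    simp
  · apply le_antisymm
    · rw [Submodule.span_le]
      rintro _ ⟨o, rfl⟩
      cases o with
      | none =>
        simp only [Option.elim]
        exact Submodule.neg_mem _ (Submodule.sum_mem _ fun i _ =>
          Submodule.subset_span ⟨i, rfl⟩)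
      | some i => exact Submodule.subset_span ⟨i, rfl⟩
    · rw [Submodule.span_le]
      rintro _ ⟨i, rfl⟩
      exact Submodule.subset_span ⟨some i, rfl⟩

lemma sb_fin (β : Module.Basis ι ℝ (E ι)) (C : ℝ) : {b ∈ SB β | en b ≤ C}.Finite := by
  have h1 : (Metric.closedBall (0 : E ι) (√C) ∩ (Submodule.span ℤ (Set.range β) : Set (E ι))).Finite :=
    ZSpan.setFinite_inter β Metric.isBounded_closedBall
  refine (Set.Finite.pi' fun _ : Option ι => h1).subset ?_
  rintro b ⟨⟨_, hb⟩, hC⟩ o
  constructor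
  · rw [mem_closedBall_zero_iff]
    apply Real.le_sqrt_of_sq_le
    refine le_trans ?_ hC
    exact Finset.single_le_sum (f := fun o => ‖b o‖ ^ 2) (fun _ _ => by positivity)
      (Finset.mem_univ o)
  · rw [← hb]
    exact Submodule.subset_span ⟨o, rfl⟩

lemma exists_min (β : Module.Basis ι ℝ (E ι)) : ∃ b ∈ SB β, ∀ b' ∈ SB β, en b ≤ en b' := by
  obtain ⟨b0, hb0⟩ := sb_nonempty β
  obtain ⟨b, ⟨hb1, hb2⟩, hmin⟩ := Set.exists_min_image {b ∈ SB β | en b ≤ en b0} en
    (sb_fin β (en b0)) ⟨b0, hb0, le_rfl⟩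
  refine ⟨b, hb1, fun b' hb' => ?_⟩
  rcases le_total (en b') (en b0) with h | h
  · exact hmin b' ⟨hb', h⟩
  · exact hb2.trans h

open Classical in
/-- Selling's step -/
noncomputable def st (b : Option ι → E ι) (i j : Option ι) (o : Option ι) : E ι :=
  b o + (if o = i then (-2 : ℤ) else if o = j then 0 else 1) • b i

lemma st_mem (β : Module.Basis ι ℝ (E ι)) (h3 : Fintype.card ι = 3) (b : Option ι → E ι)
    (hb : b ∈ SB β) (i j : Option ι) (hij : i ≠ j) :
    st b i j ∈ SB β ∧ en (st b i j) = en b - 2 * ⟪b i, b j⟫_ℝ := by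
  classical
  obtain ⟨hs, hl⟩ := hb
  set s : Option ι → ℤ := fun o => if o = i then (-2 : ℤ) else if o = j then 0 else 1 with hsdef
  have hst : ∀ o, st b i j o = b o + s o • b i := fun o => by
    unfold st
    simp only [hsdef]
  have hsum : ∀ f : Option ι → ℝ, ∑ o, (s o : ℝ) * f o = ∑ o, f o - 3 * f i - f j := by
    intro f
    have h1 : ∀ o, (s o : ℝ) * f o = f o - (if o = i then 3 * f o else 0) -
        (if o = j then f o else 0) := by
      intro o
      by_cases h : o = i
      · subst h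
        simp only [hsdef, if_true, if_neg hij]
        push_cast
        ring
      · by_cases h' : o = j
        · subst h'
          simp [hsdef, h]
        · simp [hsdef, h, h']
    rw [Finset.sum_congr rfl fun o _ => h1 o, Finset.sum_sub_distrib, Finset.sum_sub_distrib]
    simp
  have hs0 : ∑ o, s o = 0 := by
    have := hsum fun _ => 1
    simp only [mul_one, Finset.sum_const, Finset.card_univ, Fintype.card_option, h3] at this
    have h2 : ((∑ o, s o : ℤ) : ℝ) = 0 := by
      rw [Int.cast_sum, this]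
      norm_num
    exact_mod_cast h2
  refine ⟨⟨?_, ?_⟩, ?_⟩
  · rw [Finset.sum_congr rfl fun o _ => hst o, Finset.sum_add_distrib, hs, zero_add,
      ← Finset.sum_smul, hs0, zero_smul]
  · rw [← hl]
    have hbi : st b i j i = -b i := by
      rw [hst]
      simp only [hsdef, if_true]
      rw [show ((-2 : ℤ)) = -1 + -1 by norm_num, add_smul, neg_one_smul]
      abel
    apply le_antisymm
    · rw [Submodule.span_le]
      rintro _ ⟨o, rfl⟩
      rw [hst]
      exact Submodule.add_mem _ (Submodule.subset_span ⟨o, rfl⟩)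
        (Submodule.smul_mem _ _ (Submodule.subset_span ⟨i, rfl⟩))
    · rw [Submodule.span_le]
      have hi : b i ∈ Submodule.span ℤ (Set.range (st b i j)) := by
        have : st b i j i ∈ Submodule.span ℤ (Set.range (st b i j)) :=
          Submodule.subset_span ⟨i, rfl⟩
        rw [hbi] at this
        simpa using Submodule.neg_mem _ this
      rintro _ ⟨o, rfl⟩
      have h1 : b o = st b i j o - s o • b i := by rw [hst]; abel
      rw [h1]
      exact Submodule.sub_mem _ (Submodule.subset_span ⟨o, rfl⟩) (Submodule.smul_mem _ _ hi)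
  · have h1 : ∀ o, ‖st b i j o‖ ^ 2 = ‖b o‖ ^ 2 + (2 * ((s o : ℝ) * ⟪b o, b i⟫_ℝ) +
        (s o : ℝ) * ((s o : ℝ) * ‖b i‖ ^ 2)) := by
      intro o
      rw [hst, ← Int.cast_smul_eq_zsmul ℝ, @norm_add_sq_real, inner_smul_right, norm_smul, mul_pow,
        Real.norm_eq_abs, sq_abs]
      ring
    have h2 : ∑ o, ⟪b o, b i⟫_ℝ = 0 := by
      rw [← sum_inner, hs, inner_zero_left]
    have h3' := hsum fun o => ⟪b o, b i⟫_ℝ
    have h4 := hsum fun o => (s o : ℝ) * ‖b i‖ ^ 2
    have h5 : ∑ o, (s o : ℝ) * ‖b i‖ ^ 2 = 0 := by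
      rw [← Finset.sum_mul, ← Int.cast_sum, hs0]
      simp
    have hsi : s i = -2 := by simp [hsdef]
    have hsj : s j = 0 := by simp [hsdef, hij.symm]
    unfold en
    rw [Finset.sum_congr rfl fun o _ => h1 o, Finset.sum_add_distrib, Finset.sum_add_distrib,
      ← Finset.mul_sum, h3', h4, h2, h5, hsi, hsj, real_inner_self_eq_norm_sq,
      real_inner_comm (b i) (b j)]
    push_cast
    ring

theorem main : S_K6 := by
  intro ι _ β h3
  obtain ⟨b, hb, hmin⟩ := exists_min β
  refine ⟨Option ι, inferInstance, b, ⟨hb.1, Fintype.card_option, ?_, ?_⟩, ?_⟩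
  · rw [← β.span_eq, Submodule.span_le]
    rintro _ ⟨i, rfl⟩
    have h1 : β i ∈ Submodule.span ℤ (Set.range b) := by
      rw [hb.2]
      exact Submodule.subset_span ⟨i, rfl⟩
    exact Submodule.span_le_restrictScalars ℤ ℝ (Set.range b) h1
  · intro i j hij
    by_contra h
    push Not at h
    obtain ⟨h1, h2⟩ := st_mem β h3 b hb i j hij
    have := hmin _ h1
    rw [h2] at this
    linarith
  · intro x
    have h1 := mem_L (⇑β) x
    have h2 := mem_L b x
    rw [h2, hb.2, ← h1]
    rfl

end Pool.Agent.Helper76.SPX.K6
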