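import Pool.Agent.Helper64.SPX.Spec

/-! # Plancherel for functions in `L¹ ∩ L²` -/

set_option autoImplicit false

open MeasureTheory FourierTransform SchwartzMap
open scoped InnerProductSpace ENNReal ContDiff

namespace Pool.Agent.Helper76.SPX

section
variable {V : Type*} [NormedAddCommGroup V] [InnerProductSpace ℝ V] [FiniteDimensional ℝ V]
  [MeasurableSpace V] [BorelSpace V]

theorem fourier_ae (H : V → ℂ) (h1 : Integrable H) (h2 : MemLp H 2) (f : Lp (α := V) ℂ 2)
    (hf : f = h2.toLp H) : ∀ᵐ x, (𝓕 f : Lp (α := V) ℂ 2) x = 𝓕 H x := by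
  have hfx : ∀ᵐ x, f x = H x := by rw [hf]; exact h2.coeFn_toLp
  obtain ⟨F, hF⟩ : ∃ F : Lp (α := V) ℂ 2, F = 𝓕 f := ⟨_, rfl⟩
  rw [← hF]
  apply ae_eq_of_integral_contDiff_smul_eq
  · exact (Lp.memLp _).locallyIntegrable (by norm_num)
  · have : Continuous (𝓕 H) := VectorFourier.fourierIntegral_continuous Real.continuous_fourierChar
      (by exact continuous_inner) h1
    exact this.locallyIntegrable
  · intro g hg hgc
    have hc1 : ContDiff ℝ ∞ (fun x => (g x : ℂ)) := Complex.ofRealCLM.contDiff.comp hg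
    have hc2 : HasCompactSupport (fun x => (g x : ℂ)) := hgc.comp_left Complex.ofReal_zero
    set φ := hc2.toSchwartzMap hc1 with hφ
    have hφx : ∀ x, φ x = (g x : ℂ) := fun x => rfl
    have e1 : ∫ x, g x • F x = (Lp.toTemperedDistribution F) φ := by
      rw [Lp.toTemperedDistribution_apply]
      rfl
    rw [e1, hF, ← Lp.fourier_toTemperedDistribution_eq, TemperedDistribution.fourier_apply,
      Lp.toTemperedDistribution_apply]
    have e2 : ∫ x, (𝓕 φ) x • f x = ∫ x, (𝓕 φ) x • H x :=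
      integral_congr_ae (by filter_upwards [hfx] with x hx; rw [hx])
    rw [e2]
    have e3 := VectorFourier.integral_fourierIntegral_smul_eq_flip (L := innerₗ V)
      Real.continuous_fourierChar continuous_inner (φ.integrable (μ := volume)) h1
    rw [flip_innerₗ] at e3
    rw [SchwartzMap.fourier_coe]
    exact e3

theorem lp_norm_sq (f : Lp (α := V) ℂ 2) : ‖f‖ ^ 2 = ∫ x, ‖f x‖ ^ 2 := by
  have h : inner ℂ f f = ∫ x, inner ℂ (f x) (f x) := L2.inner_def f f
  simp only [inner_self_eq_norm_sq_to_K] at h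
  have h2 : (∫ x, ((‖f x‖ : ℂ)) ^ 2) = ((∫ x, ‖f x‖ ^ 2 : ℝ) : ℂ) := by
    rw [← integral_complex_ofReal]
    congr 1
    funext x
    push_cast
    rfl
  have h3 : ((‖f‖ ^ 2 : ℝ) : ℂ) = ((∫ x, ‖f x‖ ^ 2 : ℝ) : ℂ) := by
    rw [← h2]
    push_cast
    exact h
  exact_mod_cast h3

theorem planch (H : V → ℂ) (h1 : Integrable H) (h2 : MemLp H 2) :
    MemLp (𝓕 H) 2 ∧ ∫ z, ‖𝓕 H z‖ ^ 2 = ∫ x, ‖H x‖ ^ 2 := by
  have h3 := fourier_ae H h1 h2 _ rfl
  have h4 : ∀ᵐ x, (h2.toLp H) x = H x := h2.coeFn_toLp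
  refine ⟨(memLp_congr_ae h3).1 (Lp.memLp _), ?_⟩
  have e1 : ∫ z, ‖𝓕 H z‖ ^ 2 = ‖(𝓕 (h2.toLp H : Lp (α := V) ℂ 2) : Lp (α := V) ℂ 2)‖ ^ 2 := by
    rw [lp_norm_sq]
    refine integral_congr_ae ?_
    filter_upwards [h3] with x hx
    rw [hx]
  rw [e1, Lp.norm_fourier_eq, lp_norm_sq]
  refine integral_congr_ae ?_
  filter_upwards [h4] with x hx
  rw [hx]

end

open Pool.Agent.Helper64.SPX

variable {ι : Type} [Fintype ι]

lemma ft_eq (H : E ι → ℂ) (z : E ι) : ft H z = 𝓕 H z := by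
  rw [Real.fourier_eq]
  unfold ft ee
  congr 1
  funext x
  rw [Circle.smul_def, Real.fourierChar_apply, smul_eq_mul, mul_comm, real_inner_comm]
  congr 2
  push_cast
  ring

lemma ft_eq' (H : E ι → ℂ) : ft H = 𝓕 H := funext (ft_eq H)

/-- Plancherel for bounded functions with bounded support -/
theorem planch_bdd (H : E ι → ℂ) (hH : Bdd H) :
    Integrable H ∧ Integrable (fun z => ‖ft H z‖ ^ 2) ∧
      ∫ z, ‖ft H z‖ ^ 2 = ∫ x, ‖H x‖ ^ 2 := by
  obtain ⟨hm, ⟨C, hC⟩, r, hr⟩ := hH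
  have hs : Function.support H ⊆ Metric.closedBall 0 r := by
    intro x hx
    by_contra h
    rw [mem_closedBall_zero_iff, not_le] at h
    exact hx (hr x h.le)
  have hfin : volume (Metric.closedBall (0 : E ι) r) ≠ ⊤ :=
    (Metric.isBounded_closedBall.measure_lt_top).ne
  have hL : ∀ p : ℝ≥0∞, MemLp H p := by
    intro p
    have : MemLp H p (volume.restrict (Metric.closedBall 0 r)) := by
      have : IsFiniteMeasure (volume.restrict (Metric.closedBall (0 : E ι) r)) :=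
        ⟨by rw [Measure.restrict_apply_univ]; exact hfin.lt_top⟩
      exact MemLp.of_bound hm.aestronglyMeasurable C (Filter.Eventually.of_forall hC)
    rwa [← memLp_indicator_iff_restrict Metric.isClosed_closedBall.measurableSet,
      Set.indicator_eq_self.2 hs] at this
  have h1 : Integrable H := memLp_one_iff_integrable.1 (hL 1)
  obtain ⟨h3, h4⟩ := planch H h1 (hL 2)
  rw [← ft_eq'] at h3 h4
  refine ⟨h1, ?_, h4⟩
  exact (memLp_two_iff_integrable_sq_norm h3.1).1 h3

end Pool.Agent.Helper76.SPX
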